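import Pool.Agent.Helper61.K4.Defs
import Pool.Agent.Helper15.KN.D

/-!
K4 (several towers), blocks D1 and D2: Goursat's lemma with links of matrices; blocks with different weight multiplicities are
not linked.
-/

set_option autoImplicit false

open Matrix

namespace Pool.Agent.Helper15.K4

open Pool.Agent.Helper61.K4 Pool.Agent.Helper15.KN

section conv
variable {K : Type} [Field K] {n : Type} [Fintype n] [DecidableEq n]

theorem matrix_of_equiv (T : (n → K) ≃ₗ[K] (n → K)) : ∃ M : Matrix n n K, IsUnit M.det ∧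
    ∀ (a b : Matrix n n K) (c : K), toLinAlgEquiv' a ∘ₗ T.toLinearMap - T.toLinearMap ∘ₗ toLinAlgEquiv' b =
      c • T.toLinearMap → a * M - M * b = c • M := by
  have h0 : ∀ M : Matrix n n K, (toLinAlgEquiv' M : Module.End K (n → K)) = toLin' M := fun _ => rfl
  refine ⟨LinearMap.toMatrix' T.toLinearMap, ?_, ?_⟩
  · have h1 : LinearMap.toMatrix' T.toLinearMap * LinearMap.toMatrix' T.symm.toLinearMap = 1 := by
      rw [← LinearMap.toMatrix'_comp]
      have : T.toLinearMap ∘ₗ T.symm.toLinearMap = LinearMap.id := LinearMap.ext fun v => T.apply_symm_apply v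
      rw [this, LinearMap.toMatrix'_id]
    have h2 := congrArg Matrix.det h1
    rw [Matrix.det_mul, Matrix.det_one] at h2
    exact IsUnit.of_mul_eq_one _ h2
  · intro a b c h
    have h1 := congrArg LinearMap.toMatrix' h
    rw [map_sub, map_smul, LinearMap.toMatrix'_comp, LinearMap.toMatrix'_comp, h0, h0, LinearMap.toMatrix'_toLin',
      LinearMap.toMatrix'_toLin'] at h1
    exact h1

theorem equiv_of_matrix {M : Matrix n n K} (hM : IsUnit M.det) : ∃ T : (n → K) ≃ₗ[K] (n → K),
    (∀ v, T v = M *ᵥ v) ∧
    ∀ (a b : Matrix n n K) (c : K), a * M - M * b = c • M →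
      toLinAlgEquiv' a ∘ₗ T.toLinearMap - T.toLinearMap ∘ₗ toLinAlgEquiv' b = c • T.toLinearMap := by
  have hd : (LinearMap.det (toLin' M)) ≠ 0 := by
    rw [LinearMap.det_toLin']
    exact hM.ne_zero
  let T : (n → K) ≃ₗ[K] (n → K) := LinearMap.equivOfDetNeZero (toLin' M) hd
  have hT : T.toLinearMap = toLin' M := LinearMap.ext fun v => rfl
  refine ⟨T, fun v => ?_, ?_⟩
  · show T.toLinearMap v = _
    rw [hT, toLin'_apply]
  · intro a b c h
    rw [hT]
    show toLin' a ∘ₗ toLin' M - toLin' M ∘ₗ toLin' b = c • toLin' M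
    rw [← toLin'_mul, ← toLin'_mul, ← map_sub, h, map_smul]

/-- the bilinear form of a matrix -/
theorem matrix_of_dual (T : (n → K) ≃ₗ[K] Module.Dual K (n → K)) : ∃ M : Matrix n n K, IsUnit M.det ∧
    ∀ (a b : Matrix n n K) (c : K), (toLinAlgEquiv' a).dualMap ∘ₗ T.toLinearMap + T.toLinearMap ∘ₗ toLinAlgEquiv' b =
      c • T.toLinearMap → aᵀ * M + M * b = c • M := by
  let D := dotProductEquiv K n
  let T' : (n → K) ≃ₗ[K] (n → K) := T.trans D.symm
  have hD : ∀ v w, D v w = v ⬝ᵥ w := fun v w => rfl
  have hT' : ∀ v, T v = D (T' v) := fun v => (D.apply_symm_apply (T v)).symm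
  have hM : ∀ v, LinearMap.toMatrix' T'.toLinearMap *ᵥ v = T' v := fun v => by
    rw [← toLin'_apply, toLin'_toMatrix']
    rfl
  refine ⟨LinearMap.toMatrix' T'.toLinearMap, ?_, ?_⟩
  · have h1 : LinearMap.toMatrix' T'.toLinearMap * LinearMap.toMatrix' T'.symm.toLinearMap = 1 := by
      rw [← LinearMap.toMatrix'_comp]
      have : T'.toLinearMap ∘ₗ T'.symm.toLinearMap = LinearMap.id := LinearMap.ext fun v => T'.apply_symm_apply v
      rw [this, LinearMap.toMatrix'_id]
    have h2 := congrArg Matrix.det h1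
    rw [Matrix.det_mul, Matrix.det_one] at h2
    exact IsUnit.of_mul_eq_one _ h2
  · intro a b c h
    refine Matrix.mulVec_injective (funext fun v => ?_)
    refine D.injective (LinearMap.ext fun w => ?_)
    have h1 := LinearMap.congr_fun (LinearMap.congr_fun h v) w
    have h2 : T v (a *ᵥ w) + T (b *ᵥ v) w = c * T v w := h1
    rw [hT', hT', hD, hD, hD] at h2
    rw [hD, hD, Matrix.add_mulVec, Matrix.smul_mulVec, ← Matrix.mulVec_mulVec, ← Matrix.mulVec_mulVec, hM, hM,
      add_dotProduct, smul_dotProduct, Matrix.mulVec_transpose, ← Matrix.dotProduct_mulVec, h2, smul_eq_mul]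

end conv

section D
variable {X n K : Type} [DecidableEq X] [Fintype X] [Fintype n] [DecidableEq n] [Field K] [CharZero K]

/-- D1: Goursat's lemma -/
theorem goursat_link [IsAlgClosed K] (L : Submodule K (X → Matrix n n K)) (hbr : ∀ a ∈ L, ∀ b ∈ L, a * b - b * a ∈ L)
    (hsur : ∀ x, ∀ c : Matrix n n K, c.trace = 0 → ∃ a ∈ L, a x = c) (hno : ∀ x x', x ≠ x' → ¬ IsLink L x x') :
    ∀ a : X → Matrix n n K, (∀ x, (a x).trace = 0) → a ∈ L := by
  intro a ha
  rcases isEmpty_or_nonempty n with hn | hn
  · have : a = 0 := by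
      funext x
      ext i
      exact hn.elim i
    rw [this]
    exact L.zero_mem
  let φ : Matrix n n K ≃ₐ[K] Module.End K (n → K) := Matrix.toLinAlgEquiv'
  have hcard : (Fintype.card n : K) ≠ 0 := Nat.cast_ne_zero.2 Fintype.card_ne_zero
  let 𝔳 : Submodule K (X → Module.End K (n → K)) :=
    { carrier := {f | (fun x => φ.symm (f x)) ∈ L}
      add_mem' := by
        intro f g hf hg
        have : (fun x => φ.symm ((f + g) x)) = (fun x => φ.symm (f x)) + fun x => φ.symm (g x) := by
          funext x
          exact map_add _ _ _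
        show (fun x => φ.symm ((f + g) x)) ∈ L
        rw [this]
        exact L.add_mem hf hg
      zero_mem' := by
        have : (fun x => φ.symm ((0 : X → Module.End K (n → K)) x)) = 0 := by
          funext x
          exact map_zero _
        show (fun x => φ.symm ((0 : X → Module.End K (n → K)) x)) ∈ L
        rw [this]
        exact L.zero_mem
      smul_mem' := by
        intro c f hf
        have : (fun x => φ.symm ((c • f) x)) = c • fun x => φ.symm (f x) := by
          funext x
          exact map_smul φ.symm c (f x)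
        show (fun x => φ.symm ((c • f) x)) ∈ L
        rw [this]
        exact L.smul_mem c hf }
  have hmem : ∀ b ∈ L, (fun x => φ (b x)) ∈ 𝔳 := by
    intro b hb
    show (fun x => φ.symm (φ (b x))) ∈ L
    have : (fun x => φ.symm (φ (b x))) = b := by
      funext x
      exact φ.symm_apply_apply _
    rw [this]
    exact hb
  have hlie : ∀ f ∈ 𝔳, ∀ g ∈ 𝔳, f * g - g * f ∈ 𝔳 := by
    intro f hf g hg
    have h1 := hbr _ hf _ hg
    show (fun x => φ.symm ((f * g - g * f) x)) ∈ L
    have : (fun x => φ.symm ((f * g - g * f) x)) = (fun x => φ.symm (f x)) * (fun x => φ.symm (g x)) -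
        (fun x => φ.symm (g x)) * fun x => φ.symm (f x) := by
      funext x
      show φ.symm (f x * g x - g x * f x) = φ.symm (f x) * φ.symm (g x) - φ.symm (g x) * φ.symm (f x)
      rw [map_sub, map_mul, map_mul]
    rw [this]
    exact h1
  have hfull0 : ∀ (i : X) (y : Module.End K (n → K)), ∃ f ∈ 𝔳, ∃ c : K, f i + c • 1 = y := by
    intro i y
    obtain ⟨b, hb, hbi⟩ := hsur i (φ.symm y - ((φ.symm y).trace / Fintype.card n) • 1) (by
      rw [Matrix.trace_sub, Matrix.trace_smul, Matrix.trace_one, smul_eq_mul, div_mul_cancel₀ _ hcard,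
        sub_self])
    refine ⟨_, hmem b hb, (φ.symm y).trace / Fintype.card n, ?_⟩
    show φ (b i) + _ = y
    rw [hbi, map_sub, φ.apply_symm_apply, map_smul, map_one, sub_add_cancel]
  have htr : ∀ M : Matrix n n K, LinearMap.trace K (n → K) (φ M) = M.trace := fun M =>
    Matrix.trace_toLin'_eq M
  have hfin : Module.finrank K (n → K) = Fintype.card n := Module.finrank_fintype_fun_eq_card K
  have hV : Nontrivial (n → K) := inferInstance
  -- no links between different blocks
  have hno' : ∀ i j : X, i ≠ j → (¬ ∃ T : (n → K) ≃ₗ[K] (n → K), ∀ f ∈ 𝔳, ∃ c : K,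
      f j ∘ₗ T.toLinearMap - T.toLinearMap ∘ₗ f i = c • T.toLinearMap) ∧
      ¬ ∃ T : (n → K) ≃ₗ[K] Module.Dual K (n → K), ∀ f ∈ 𝔳, ∃ c : K,
      (f j).dualMap ∘ₗ T.toLinearMap + T.toLinearMap ∘ₗ f i = c • T.toLinearMap := by
    intro i j hij
    constructor
    · rintro ⟨T, hT⟩
      obtain ⟨M, hM, hM'⟩ := matrix_of_equiv T
      refine hno i j hij ⟨M, hM, Or.inl fun b hb => ?_⟩
      obtain ⟨c, hc⟩ := hT _ (hmem b hb)
      exact ⟨c, hM' (b j) (b i) c hc⟩
    · rintro ⟨T, hT⟩
      obtain ⟨M, hM, hM'⟩ := matrix_of_dual T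
      refine hno i j hij ⟨M, hM, Or.inr fun b hb => ?_⟩
      obtain ⟨c, hc⟩ := hT _ (hmem b hb)
      exact ⟨c, hM' (b j) (b i) c hc⟩
  have hmain := Pool.Agent.Helper43.MT.goursat (V := fun _ : X => (n → K)) 𝔳 hlie (fun i _ => hfull0 i)
    (fun i j hi hs => Pool.Agent.Helper90.MC.fam_link_ac 𝔳 hlie (fun i _ => hfull0 i) i j hi hs)
    (fun x => φ (a x)) (fun x => (htr (a x)).trans (ha x)) (fun i j T hT => ?_) fun i j T hT => ?_
  · have h1 : (fun x => φ.symm (φ (a x))) ∈ L := hmain
    have h2 : (fun x => φ.symm (φ (a x))) = a := by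
      funext x
      exact φ.symm_apply_apply _
    rwa [h2] at h1
  · by_cases hij : i = j
    · subst hij
      obtain ⟨f, hf, c', hc'⟩ := hfull0 i (φ (a i))
      obtain ⟨c, hc⟩ := hT f hf
      have h1 : ∀ v, φ (a i) (T v) - T (φ (a i) v) = c • T v := by
        intro v
        have h2 := LinearMap.congr_fun hc v
        rw [← hc']
        simp only [LinearMap.add_apply, LinearMap.smul_apply, Module.End.one_apply, map_add, map_smul,
          LinearMap.sub_apply, LinearMap.comp_apply, LinearEquiv.coe_coe] at h2 ⊢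
        rw [← h2]
        abel
      have h3 : φ (a i) - T.toLinearMap ∘ₗ φ (a i) ∘ₗ T.symm.toLinearMap = c • 1 := by
        refine LinearMap.ext fun w => ?_
        have h4 := h1 (T.symm w)
        rw [T.apply_symm_apply] at h4
        exact h4
      have h5 := congrArg (LinearMap.trace K (n → K)) h3
      have h6 : LinearMap.trace K (n → K) (T.toLinearMap ∘ₗ φ (a i) ∘ₗ T.symm.toLinearMap) =
          LinearMap.trace K (n → K) (φ (a i)) := by
        rw [LinearMap.trace_comp_comm']
        congr 1
        refine LinearMap.ext fun w => ?_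
        show φ (a i) (T.symm (T w)) = _
        rw [T.symm_apply_apply]
      rw [map_sub, h6, sub_self, map_smul, LinearMap.trace_one, hfin, smul_eq_mul] at h5
      have h7 : c = 0 := (mul_eq_zero.1 h5.symm).resolve_right hcard
      refine LinearMap.ext fun v => ?_
      have h8 := h1 v
      rw [h7, zero_smul] at h8
      exact sub_eq_zero.1 h8
    · exact absurd ⟨T, hT⟩ (hno' i j hij).1
  · by_cases hij : i = j
    · subst hij
      obtain ⟨f, hf, c', hc'⟩ := hfull0 i (φ (a i))
      obtain ⟨c, hc⟩ := hT f hf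
      have h1 : ∀ v, (φ (a i)).dualMap (T v) + T (φ (a i) v) = (c + 2 * c') • T v := by
        intro v
        have h2 := LinearMap.congr_fun hc v
        rw [← hc']
        have h3 : (f i + c' • (1 : Module.End K (n → K))).dualMap (T v) = (f i).dualMap (T v) + c' • T v := by
          refine LinearMap.ext fun w => ?_
          show T v (f i w + c' • w) = T v (f i w) + c' • T v w
          rw [map_add, map_smul]
        rw [h3]
        simp only [LinearMap.add_apply, LinearMap.smul_apply, Module.End.one_apply, map_add, map_smul,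
          LinearMap.comp_apply, LinearEquiv.coe_coe] at h2 ⊢
        rw [add_smul, ← h2, two_mul, add_smul]
        abel
      have h3 : (T.symm.toLinearMap ∘ₗ (φ (a i)).dualMap ∘ₗ T.toLinearMap) + φ (a i) = (c + 2 * c') • 1 := by
        refine LinearMap.ext fun w => T.injective ?_
        show T (T.symm ((φ (a i)).dualMap (T w)) + φ (a i) w) = T ((c + 2 * c') • w)
        rw [map_add, T.apply_symm_apply, h1, map_smul]
      have h5 := congrArg (LinearMap.trace K (n → K)) h3
      have h6 : LinearMap.trace K (n → K) (T.symm.toLinearMap ∘ₗ (φ (a i)).dualMap ∘ₗ T.toLinearMap) =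
          LinearMap.trace K (n → K) (φ (a i)) := by
        rw [LinearMap.trace_comp_comm', LinearMap.comp_assoc]
        have h7 : T.toLinearMap ∘ₗ T.symm.toLinearMap = LinearMap.id := by
          refine LinearMap.ext fun w => T.apply_symm_apply w
        rw [h7, LinearMap.comp_id]
        exact LinearMap.trace_transpose' _
      rw [map_add, h6, htr, ha, add_zero, map_smul, LinearMap.trace_one, hfin, smul_eq_mul] at h5
      have h7 : c + 2 * c' = 0 := (mul_eq_zero.1 h5.symm).resolve_right hcard
      refine LinearMap.ext fun v => ?_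
      have h8 := h1 v
      rw [h7, zero_smul] at h8
      exact h8
    · exact absurd ⟨T, hT⟩ (hno' i j hij).2
end D

end Pool.Agent.Helper15.K4
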